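import Pool.Agent.Lib.MP_b2135d_an.YMain

namespace Pool.Agent.Results.MP_b2135d_an.Full

open Pool.Agent.Izumi

theorem result (G D : Type) [Group G] [Countable G] [CStarAlgebra D] [PartialOrder D]
    [StarOrderedRing D] (hD : IsStronglySelfAbsorbing D) (hG : IsAmenableGroup G)
    (htf : ∀ g : G, IsOfFinOrder g → g = 1) (α β : G →* (D ≃⋆ₐ[ℂ] D))
    (hα : IsStronglyOuter α) (hβ : IsStronglyOuter β) : CocycleConjugate α β :=
  main_full hD hG htf α β hα hβ

end Pool.Agent.Results.MP_b2135d_an.Full
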