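import Pool.Agent.Lib.MP_b2135d_an.Main

/-! Uniqueness of strongly outer actions of torsion-free elementary amenable groups on the
universal UHF algebra. -/

namespace Pool.Agent.Results.MP_b2135d_an.UniversalUHF

open Pool.Agent.Izumi

theorem result (G D : Type) [Group G] [Countable G] [CStarAlgebra D] [PartialOrder D]
    [StarOrderedRing D] (hD : IsUniversalUHF D) (hG : ElemAmenable G)
    (htf : ∀ g : G, IsOfFinOrder g → g = 1) (α β : G →* (D ≃⋆ₐ[ℂ] D)) (hα : StronglyOuter α)
    (hβ : StronglyOuter β) : CocycleConjugate α β :=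
  main G D hD hG htf α β hα hβ

end Pool.Agent.Results.MP_b2135d_an.UniversalUHF
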